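import Pool.Agent.W953.KC.Rand
import Pool.Agent.W953.KC.Par

/-!
# Circuits with `f k * n ^ o(k)` gates and few NOT gates for `k`-clique on graphs with few numbers of
edges

Negations do not help on the graphs with exactly `m` edges (Berkowitz, Valiant), and `log N + O(1)`
NOT gates are enough on all graphs, `N = n (n - 1) / 2` (Markov, Fischer). Here it is shown that the
question whether `k`-clique has circuits with `f k * n ^ o(k)` gates does not change if the circuits
may have only `t` NOT gates and need to be correct only for `W` consecutive numbers of edges, as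
long as `1 ≤ W ≤ o(k) * 2 ^ t`; and that such circuits do not exist as soon as
`W ≥ 2 ^ ((1 + ε) * t)` and `W ≥ n ^ ε`.
-/

set_option autoImplicit false

namespace Pool.Agent.Results.MP_678664_lc.CliqueSizeWindows

open Filter Pool.Agent.H540R2

variable {n : ℕ}

/-- a numbering of the pairs of vertices -/
noncomputable def pairNo (n : ℕ) : {p : Fin n × Fin n // p.1 < p.2} ≃ Fin (n.choose 2) :=
  Fintype.equivFinOfCardEq (W953.NW.card_pairs n)

/-- the graph whose edges are the pairs with true bits -/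
def graph (x : Fin (n.choose 2) → Bool) : SimpleGraph (Fin n) :=
  SimpleGraph.fromRel (fun i j => ∃ h : i < j, x (pairNo n ⟨(i, j), h⟩) = true)

/-- the number of edges of the graph -/
def edges (x : Fin (n.choose 2) → Bool) : ℕ := (Finset.univ.filter (fun e => x e = true)).card

/-- The circuit `C` is right about `k`-cliques on the graph of `x`. -/
def Right (k : ℕ) (C : Circuit (n.choose 2)) (x : Fin (n.choose 2) → Bool) : Prop :=
  C.eval x = true ↔ ¬ (graph x).CliqueFree k

/-- `g k = o(k)` -/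
def Small (g : ℕ → ℕ) : Prop := Tendsto (fun k : ℕ => (g k : ℝ) / k) atTop (nhds 0)

/-- `k`-clique has circuits with `f k * n ^ o(k)` gates. -/
def Sub : Prop :=
  ∃ f g : ℕ → ℕ, Small g ∧ ∀ k, ∀ n ≥ 2, ∃ C : Circuit (n.choose 2),
    C.size ≤ f k * n ^ g k ∧ ∀ x, Right k C x

/-- For all `m` there are circuits with `f k * n ^ o(k)` gates, at most `t k n` of them NOT gates,
that decide `k`-clique on all graphs with at least `m` and less than `m + W k n` edges. -/
def SubOn (t W : ℕ → ℕ → ℕ) : Prop :=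
  ∃ f g : ℕ → ℕ, Small g ∧ ∀ k, ∀ n ≥ 2, ∀ m, ∃ C : Circuit (n.choose 2), C.nots ≤ t k n ∧
    C.size ≤ f k * n ^ g k ∧ ∀ x, m ≤ edges x → edges x < m + W k n → Right k C x

open Classical in
/-- (1) If `1 ≤ W ≤ K(k) * 2 ^ t` with `K(k) = o(k)`, then circuits with `f k * n ^ o(k)` gates and
`t` NOT gates for `W` consecutive numbers of edges exist if and only if `k`-clique has circuits with
`f k * n ^ o(k)` gates. (2) If `n ^ ε ≤ W ≤ n ^ 2` and `2 ^ ((1 + ε) * t) ≤ W`, they do not exist;
and randomised circuits of this kind (distributions `μ` on finite sets of circuits) are right with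
probability less than `1 / 2 + n ^ (-α)` on some graph with at least `m` and less than `m + W`
edges, for all `m ≤ n ^ 2 / 25`. -/
theorem result :
    (∀ (K : ℕ → ℕ) (t W : ℕ → ℕ → ℕ), Small K →
      (∀ k n, 1 ≤ W k n ∧ W k n ≤ K k * 2 ^ t k n) → (SubOn t W ↔ Sub)) ∧
    (∀ ε : ℝ, 0 < ε → ∀ f g : ℕ → ℕ, Small g → ∀ᶠ k : ℕ in atTop, ∃ α : ℝ, 0 < α ∧
      ∀ᶠ n : ℕ in atTop, ∀ t W m : ℕ, (n : ℝ) ^ ε ≤ W → W ≤ n ^ 2 →
        (2 : ℝ) ^ ((1 + ε) * t) ≤ W → 25 * m ≤ n ^ 2 →
        ∀ (Ω : Type) [Fintype Ω] (μ : Ω → ℝ), (∀ o, 0 ≤ μ o) → ∑ o, μ o = 1 →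
          ∀ C : Ω → Circuit (n.choose 2),
            (∀ o, (C o).nots ≤ t ∧ (C o).size ≤ f k * n ^ g k) →
            ∃ x : Fin (n.choose 2) → Bool, m ≤ edges x ∧ edges x < m + W ∧
              ∑ o ∈ Finset.univ.filter (fun o => Right k (C o) x), μ o <
                1 / 2 + (n : ℝ) ^ (-α)) := by
  have hP : ∀ (k n : ℕ) (x y : Fin (n.choose 2) → Bool), (∀ i, x i ≤ y i) →
      ¬ (graph x).CliqueFree k → ¬ (graph y).CliqueFree k := by
    intro k n x y hxy h h'
    exact h (h'.anti (W953.KC.gr_mono (pairNo n) hxy))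
  have hadd : ∀ g K : ℕ → ℕ, Small g → Small K → Small (fun k => 2 * (K k + 14) + g k) := by
    intro g K hg hK
    have h14 : Tendsto (fun k : ℕ => (28 : ℝ) / k) atTop (nhds 0) :=
      tendsto_const_div_atTop_nhds_zero_nat (28 : ℝ)
    have := ((hK.const_mul 2).add h14).add hg
    simp only [mul_zero, add_zero] at this
    refine this.congr fun k => ?_
    push_cast
    ring
  refine ⟨fun K t W hK hW => ⟨?_, ?_⟩, ?_⟩
  · rintro ⟨f, g, hg, h⟩
    refine ⟨fun k => 2 ^ 21 * (f k + 1), fun k => 2 * (0 + 14) + g k,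
      hadd g (fun _ => 0) hg (by simp [Small]), fun k n hn => ?_⟩
    obtain ⟨C, h1, h2⟩ := W953.KC.prop_back (P := fun x => ¬ (graph x).CliqueFree k)
      (A := f k * n ^ g k) (fun m => by
        obtain ⟨C, c1, c2, c3⟩ := h k n hn m
        exact ⟨C, c2, fun x hx => c3 x hx.ge (by
          have := (hW k n).1
          have hx' : edges x = m := hx
          omega)⟩)
    refine ⟨C, h1.trans ?_, h2⟩
    have := W953.KC.par_size (F := f k) (c := g k) (w := 0) (by omega : 1 ≤ n)
      (W953.KC.choose_succ_le hn)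
    simpa using this
  · rintro ⟨f, g, hg, h⟩
    refine ⟨fun k => 2 ^ 21 * (f k + 1), fun k => 2 * (K k + 14) + g k, hadd g K hg hK,
      fun k n hn m => ?_⟩
    obtain ⟨C, h1, h2⟩ := h k n hn
    obtain ⟨C', c1, c2, c3⟩ := W953.KC.prop_windows (P := fun x => ¬ (graph x).CliqueFree k)
      (hP k n) C h2 m (W k n) (K k) (t k n) (hW k n).1 (hW k n).2
    refine ⟨C', c1, c2.trans ?_, c3⟩
    refine le_trans ?_ (W953.KC.par_size (F := f k) (c := g k) (w := K k) (by omega : 1 ≤ n)
      (W953.KC.choose_succ_le hn))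
    exact Nat.mul_le_mul_left _ (Nat.succ_le_succ h1)
  · intro ε hε f g hg
    filter_upwards [W953.KC.windows ε hε f (fun k => (g k : ℝ)) hg] with k hk
    obtain ⟨α, hα, H⟩ := hk
    refine ⟨α, hα, ?_⟩
    filter_upwards [H] with n hn t W m h1 h2 h3 h4 Ω _ μ hμ hμ1 C hC
    obtain ⟨x, hx1, hx2, hx3⟩ := hn t W m h1 h2 h3 h4 (pairNo n) Ω μ hμ hμ1 C
      (fun o => (hC o).1) (fun o => by
        have h5 := (hC o).2
        rw [Real.rpow_natCast]
        exact_mod_cast h5)
    refine ⟨x, hx1, hx2, ?_⟩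
    convert hx3
    exact Iff.rfl

end Pool.Agent.Results.MP_678664_lc.CliqueSizeWindows
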