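import Pool.Agent.W967.RC.Asym

set_option autoImplicit false

/-!
# Reasoning with comparisons needs `n ^ (ε k / r)` steps to exclude a `k`-clique

Let `G` be a graph with `n` vertices without `k`-clique. An algorithm that wants to be sure of this
reasons about a hypothetical clique `c : Fin k → Fin n` (the `i`-th vertex is `c i`). Fix a half `A`
of the indices. A comparison is a statement `f c ≤ g c` where the arbitrary real function `f`
depends only on the entries of `c` in `A` and `g` only on the other entries. Every linear inequality
`0 ≤ ∑ i, φ i (c i)` is a comparison, for every `A` (part (3)). `Cmp A r` is the class of all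
Boolean combinations of `r` comparisons.

* `Tree`: decision trees that branch on comparisons and find indices `i ≠ j` with `c i`, `c j` not
  adjacent (`Solves`).
* `Seq G A r L P`: the knowledge `P s c` after `s` steps is in `Cmp A r`; in each step the algorithm
  makes an arbitrary sound deduction from its knowledge and from the full information that `c i` and
  `c j` are adjacent, for one pair `i ≠ j`, and forgets other things; after `L` steps it has a
  contradiction. So `r` is the memory and `L` the time.
* `Der G A r ∅ P w`: tree-like derivations of `P` with all lines in `Cmp A r`, `w` leaves that follow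
  from the adjacency of `c i` and `c j` for one pair `i ≠ j`, and arbitrary sound inferences from two
  earlier lines.

For `k ≥ 16` and `n ≥ 2 ^ k ^ 4` there are a graph with `n` vertices without `k`-clique and a half
`A` such that depth `k log n / 500`, time `n ^ (k / (500 r)) / 2` and tree size
`n ^ (k / (1000 r)) / 2` are necessary. Hence no `f k * n ^ o(k)` bound holds, even if the memory
`r k` grows, as long as `r k * g k = o(k)`. One linear inequality as memory and time `n ^ k` always
suffice.

Proof: parity constraints on the complete graph with `k / 2` vertices, composed with the inner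
product of two vectors of `Θ(log n / k)` bits at each edge; the simulation argument for real
communication (deficiency of rectangles with dense projections). Blocks of the graph hold all
values at the edges of one vertex on one side, so that all constraints are binary.
-/

namespace Pool.Agent.Results.MP_678664_lc.ComparisonReasoning

open Filter Pool.Agent.W967.RC

theorem result :
    (∀ k n : ℕ, 16 ≤ k → 2 ^ k ^ 4 ≤ n →
      ∃ G : SimpleGraph (Fin n), G.CliqueFree k ∧ ∃ A : Finset (Fin k), A.card = k / 2 ∧
        (∀ T : Tree k n, T.Split A → T.Solves G → n ^ k ≤ 2 ^ (500 * T.depth)) ∧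
        (∀ (r L : ℕ) (P : ℕ → (Fin k → Fin n) → Prop), Seq G A r L P →
          n ^ k ≤ (2 * L) ^ (500 * r)) ∧
        (∀ (r w : ℕ) (P : (Fin k → Fin n) → Prop), Der G A r ∅ P w → (∀ c, ¬ P c) →
          n ^ k ≤ (2 * w) ^ (1000 * r))) ∧
    (∀ (f r : ℕ → ℕ) (g : ℕ → ℝ),
      Tendsto (fun k : ℕ => (r k : ℝ) * g k / k) atTop (nhds 0) →
      ∀ᶠ k in atTop, ∀ᶠ n in atTop, ∃ G : SimpleGraph (Fin n), G.CliqueFree k ∧
        ∃ A : Finset (Fin k), A.card = k / 2 ∧ ∀ L : ℕ, (L : ℝ) ≤ f k * (n : ℝ) ^ g k →
          (∀ P : ℕ → (Fin k → Fin n) → Prop, ¬ Seq G A (r k) L P) ∧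
          (∀ P : (Fin k → Fin n) → Prop, Der G A (r k) ∅ P L → ∃ c, P c)) ∧
    (∀ (k n : ℕ) (A : Finset (Fin k)) (φ : Fin k → Fin n → ℝ),
      Cmp A 1 fun c => 0 ≤ ∑ i, φ i (c i)) ∧
    (∀ (k n : ℕ) (G : SimpleGraph (Fin n)), G.CliqueFree k →
      ∃ φ : ℕ → Fin k → Fin n → ℝ, ∀ A : Finset (Fin k),
        Seq G A 1 (n ^ k) fun s c => 0 ≤ ∑ i, φ s i (c i)) :=
  ⟨fun _ _ hk hn => main hk hn, asym, fun _ _ => cmp_linear, fun _ _ => upper⟩

end Pool.Agent.Results.MP_678664_lc.ComparisonReasoning
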