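import Mathlib
import Pool.Agent.W980.GC.Main
import Pool.Agent.W980.GC.Asym
import Pool.Agent.W980.GC.Upper

/-!
On ideal parallel machines (priority CRCW PRAMs with arbitrary instruction set, unbounded words and
memory, and even with list searches as single steps) with running time `o(log n / log log n)`,
graphs with a `k`-clique are not told from graphs all of whose cliques have at most `δ k` vertices
with `f(k) n ^ o(k)` processors, for any `δ > 0`, not even on average. `n choose k` processors find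
out in one step whether there is a `k`-clique.
-/

namespace Pool.Agent.Results.MP_678664_lc.ParallelMachines

open DomAC0 Filter Topology Pool.Agent.H72.Clq Pool.Agent.W980.GC
open Pool.Agent.W964.Pram hiding push push_sum push_total push_nonneg push_ne

open Classical in
theorem result :
    (∀ δ : ℝ, 0 < δ → ∃ C : ℕ, 1 ≤ C ∧
      ∀ T k n : ℕ, 1 ≤ T → C ≤ k → (C * T * k) ^ (C * T) ≤ n →
        ∃ ν₀ ν₁ : SimpleGraph (Fin n) → ℝ,
          ((∀ G, 0 ≤ ν₀ G) ∧ ∑ G, ν₀ G = 1) ∧ ((∀ G, 0 ≤ ν₁ G) ∧ ∑ G, ν₁ G = 1) ∧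
          (∀ G, ν₁ G ≠ 0 → ¬ G.CliqueFree k) ∧
          (∑ G, ν₀ G * (if CliquesLe (δ * k) G then 0 else 1)) ≤ (n : ℝ) ^ (-((k : ℝ) / C)) ∧
          ∀ P K : ℕ, (P : ℝ) ≤ (n : ℝ) ^ ((k : ℝ) / C) → (K : ℝ) ≤ (n : ℝ) ^ ((k : ℝ) / C) →
            (∀ M : Machine (Pairs n) P, M.Lists K →
              |(∑ G, ν₀ G * (if M.answer T (adjBits G) = true then 1 else 0)) -
                ∑ G, ν₁ G * (if M.answer T (adjBits G) = true then 1 else 0)| ≤
                  (n : ℝ) ^ (-(1 / (C : ℝ)))) ∧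
            (∀ R : RandMachine (Pairs n) P, R.Lists K → ∃ G : SimpleGraph (Fin n),
              (¬ G.CliqueFree k ∧
                R.success T (adjBits G) True ≤ 1 / 2 + (n : ℝ) ^ (-(1 / (C : ℝ)))) ∨
              (CliquesLe (δ * k) G ∧
                R.success T (adjBits G) False ≤ 1 / 2 + (n : ℝ) ^ (-(1 / (C : ℝ)))))) ∧
    (∀ (δ : ℝ), 0 < δ → ∀ f g : ℕ → ℝ, Tendsto (fun k : ℕ => g k / k) atTop (𝓝 0) →
      ∀ T : ℕ → ℕ → ℕ, (∀ k n, 1 ≤ T k n) →
      (∀ k, Tendsto (fun n : ℕ => (T k n : ℝ) * Real.log (Real.log n) / Real.log n)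
        atTop (𝓝 0)) →
      ∀ᶠ k : ℕ in atTop, ∀ᶠ n : ℕ in atTop, ∀ P K : ℕ,
        (P : ℝ) ≤ f k * (n : ℝ) ^ g k → (K : ℝ) ≤ f k * (n : ℝ) ^ g k →
        ∀ R : RandMachine (Pairs n) P, R.Lists K → ∃ G : SimpleGraph (Fin n),
          (¬ G.CliqueFree k ∧ R.success (T k n) (adjBits G) True < 2 / 3) ∨
          (CliquesLe (δ * k) G ∧ R.success (T k n) (adjBits G) False < 2 / 3)) ∧
    (∀ n k : ℕ, ∃ M : Machine (Pairs n) (n.choose k), M.Lists (k ^ 2) ∧
      ∀ T : ℕ, 1 ≤ T → ∀ G : SimpleGraph (Fin n),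
        M.answer T (adjBits G) = true ↔ ¬ G.CliqueFree k) :=
  ⟨fun δ hδ => gap_cliqueM δ hδ, fun δ hδ f g hg T hT1 hT => clique_asym δ hδ f g hg T hT1 hT,
    fun n k => clique_upperM n k⟩

end Pool.Agent.Results.MP_678664_lc.ParallelMachines
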