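import Pool.Agent.W985.FP.Clique

/-!
# Cliques need `n ^ Ω(k)` nodes in nondeterministic programs which rarely read the edges at a vertex

Trivially, nondeterministic branching programs with `n ^ O(k)` nodes which read each edge at most
once decide whether a graph with `n` vertices has a clique with `k` vertices. We show that this is
optimal up to the constant in the exponent for programs which read each edge, or only each of the
`n - 1` edges at one vertex, at most `r` times on every walk, for every constant `r` (and the
exponent is still unbounded if `r` grows like a small multiple of `log k`).

Sparse linear checks over a large prime field, for which any two large disjoint sets of coordinates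
have many syndromes in common (they exist by counting), are verified by a `k`-partite graph in which
the label of each coordinate is given by one edge at the vertex `v₀`; accepting walks are cut into
few pieces, and the sides of the pieces are chosen at random.
-/

namespace Pool.Agent.Results.MP_678664_lc.ReadKBranchingPrograms

open Pool.Agent.W985.RG (NBP reads)
open Pool.Agent.W985.FP (enc)

open Classical in
/-- For all `r ≥ 1` and `k`, for all sufficiently large `n` and each vertex `v₀` there is a nonempty
set `Y` of graphs on `n` vertices which have a clique with `k` vertices, such that each
nondeterministic branching program `B` with `S` nodes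

* whose inputs are graphs with `n` vertices, given by the table of their edges,
* which reads each of the pairs `{v₀, u}` at most `r` times on every walk from the start to the
  accepting node (the other pairs may be read arbitrarily often),
* which accepts only graphs which have a clique with `k` vertices,

accepts at most `S * |Y| / n ^ ⌊k / 2 ^ (8 r + 16)⌋` graphs in `Y`. In particular, a program of this
kind which decides whether a graph with `n` vertices has a clique with `k` vertices has at least
`n ^ ⌊k / 2 ^ (8 r + 16)⌋` nodes. -/
theorem result (r k : ℕ) (hr : 1 ≤ r) : ∃ n₀ : ℕ, ∀ n ≥ n₀, ∀ v₀ : Fin n,
    ∃ Y : Finset (SimpleGraph (Fin n)), Y.Nonempty ∧ (∀ G ∈ Y, ¬G.CliqueFree k) ∧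
      ∀ (S : ℕ) (B : NBP (Sym2 (Fin n)) Bool S),
        (∀ l, B.Walk B.start l B.accept → ∀ u, (reads l).count s(v₀, u) ≤ r) →
        (∀ G : SimpleGraph (Fin n), B.Accepts (enc G) → ¬G.CliqueFree k) →
        (Y.filter fun G => B.Accepts (enc G)).card * n ^ (k / 2 ^ (8 * r + 16)) ≤
          S * Y.card :=
  Pool.Agent.W985.FP.clique_lower r k hr

end Pool.Agent.Results.MP_678664_lc.ReadKBranchingPrograms
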